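import Pool.Agent.SHA.Stmts

set_option autoImplicit false

namespace Pool.Agent.SHA.H53

open Pool.Agent.Helper18_Helly

universe u

open Classical in
/-- Double counting on one side. -/
theorem side {U : Type u} (Pf : Finset U) (A B : Set U) (J : U → Set U) (s a k : ℕ) (T : Finset U)
    (hcard : Pf.card = a) (hPA : ∀ p ∈ Pf, p ∉ A) (hPB : ∀ p ∈ Pf, p ∉ B)
    (hAB : ∀ t ∈ A, t ∉ B) (hJ : ∀ p ∈ Pf, J p ⊆ A)
    (hk : ∀ t ∈ A, k ≤ (Pf.filter (fun p => t ∈ J p)).card)
    (h : ∀ p ∈ Pf, (T.filter (fun t => t ∈ insert p (J p ∪ B))).card ≤ s) :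
    (T.filter (fun t => t ∈ Pf)).card + k * (T.filter (fun t => t ∈ A)).card +
      a * (T.filter (fun t => t ∈ B)).card ≤ a * s := by
  have h1 : ∀ p ∈ Pf, (T.filter (fun t => t = p)).card + (T.filter (fun t => t ∈ J p)).card +
      (T.filter (fun t => t ∈ B)).card ≤ s := by
    intro p hp
    refine le_trans ?_ (h p hp)
    have hd1 : Disjoint (T.filter (fun t => t = p)) (T.filter (fun t => t ∈ J p)) := by
      rw [Finset.disjoint_left]
      intro t ht ht'
      rw [Finset.mem_filter] at ht ht'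
      have := hJ p hp ht'.2
      rw [ht.2] at this
      exact hPA p hp this
    have hd2 : Disjoint (T.filter (fun t => t = p) ∪ T.filter (fun t => t ∈ J p))
        (T.filter (fun t => t ∈ B)) := by
      rw [Finset.disjoint_left]
      intro t ht ht'
      rw [Finset.mem_filter] at ht'
      rw [Finset.mem_union, Finset.mem_filter, Finset.mem_filter] at ht
      rcases ht with ht | ht
      · have h2 := ht'.2
        rw [ht.2] at h2
        exact hPB p hp h2
      · exact hAB t (hJ p hp ht.2) ht'.2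
    rw [← Finset.card_union_of_disjoint hd1, ← Finset.card_union_of_disjoint hd2]
    refine Finset.card_le_card ?_
    intro t ht
    simp only [Finset.mem_union, Finset.mem_filter] at ht
    rw [Finset.mem_filter]
    rcases ht with (⟨ht, h2⟩ | ⟨ht, h2⟩) | ⟨ht, h2⟩
    · exact ⟨ht, Or.inl h2⟩
    · exact ⟨ht, Or.inr (Or.inl h2)⟩
    · exact ⟨ht, Or.inr (Or.inr h2)⟩
  have h2 := Finset.sum_le_sum h1
  rw [Finset.sum_const, smul_eq_mul, hcard, Finset.sum_add_distrib, Finset.sum_add_distrib,
    Finset.sum_const, smul_eq_mul, hcard] at h2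
  have h3 : ∑ p ∈ Pf, (T.filter (fun t => t = p)).card = (T.filter (fun t => t ∈ Pf)).card := by
    have e1 : ∀ p ∈ Pf, (T.filter (fun t => t = p)).card = ∑ t ∈ T, if t = p then 1 else 0 :=
      fun p _ => Finset.card_filter _ _
    rw [Finset.sum_congr rfl e1, Finset.sum_comm, Finset.card_filter]
    refine Finset.sum_congr rfl fun t _ => ?_
    rw [Finset.sum_ite_eq]
  have h4 : k * (T.filter (fun t => t ∈ A)).card ≤ ∑ p ∈ Pf, (T.filter (fun t => t ∈ J p)).card := by
    have e1 : ∀ p ∈ Pf, (T.filter (fun t => t ∈ J p)).card = ∑ t ∈ T, if t ∈ J p then 1 else 0 :=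
      fun p _ => Finset.card_filter _ _
    rw [Finset.sum_congr rfl e1, Finset.sum_comm]
    have e2 : ∑ t ∈ T.filter (fun t => t ∈ A), k ≤
        ∑ t ∈ T.filter (fun t => t ∈ A), ∑ p ∈ Pf, if t ∈ J p then 1 else 0 := by
      refine Finset.sum_le_sum fun t ht => ?_
      rw [← Finset.card_filter]
      exact hk t (Finset.mem_filter.1 ht).2
    rw [Finset.sum_const, smul_eq_mul, mul_comm] at e2
    refine e2.trans ?_
    exact Finset.sum_le_sum_of_subset (Finset.filter_subset _ _)
  rw [h3] at h2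
  omega

open Classical in
/-- One side of the sum, from the condition on the core. -/
theorem side_core {U : Type u} (P A B X : Set U) (J : U → Set U) (s a k : ℕ) (T : Finset U)
    (hPA : Disjoint P A) (hPB : Disjoint P B) (hAB : Disjoint A B) (hX : X = P ∪ (A ∪ B))
    (hcard : P.encard = (a : ℕ∞)) (hJ : ∀ p ∈ P, J p ⊆ A)
    (hk : ∀ t ∈ A, (k : ℕ∞) ≤ {p | p ∈ P ∧ t ∈ J p}.encard)
    (h : ∀ p ∈ P, (((T : Set U) ∩ X) \ (X \ insert p (J p ∪ B))).encard ≤ s) :
    (T.filter (fun t => t ∈ P)).card + k * (T.filter (fun t => t ∈ A)).card +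
      a * (T.filter (fun t => t ∈ B)).card ≤ a * s ∧ (T.filter (fun t => t ∈ P)).card ≤ a := by
  have hfin : P.Finite := Set.finite_of_encard_eq_coe hcard
  set Pf := hfin.toFinset with hPf
  have hmem : ∀ t, t ∈ Pf ↔ t ∈ P := fun t => hfin.mem_toFinset
  have hca : Pf.card = a := by
    rw [hfin.encard_eq_coe_toFinset_card] at hcard
    exact_mod_cast hcard
  have hfil : T.filter (fun t => t ∈ P) = T.filter (fun t => t ∈ Pf) :=
    Finset.filter_congr fun t _ => (hmem t).symm
  constructor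
  · rw [hfil]
    refine side Pf A B J s a k T hca (fun p hp => Set.disjoint_left.1 hPA ((hmem p).1 hp))
      (fun p hp => Set.disjoint_left.1 hPB ((hmem p).1 hp)) (fun t ht => Set.disjoint_left.1 hAB ht)
      (fun p hp => hJ p ((hmem p).1 hp)) ?_ ?_
    · intro t ht
      have h1 := hk t ht
      have h2 : {p | p ∈ P ∧ t ∈ J p} = ((Pf.filter (fun p => t ∈ J p) : Finset U) : Set U) := by
        ext p
        rw [Finset.mem_coe, Finset.mem_filter, hmem]
        exact Iff.rfl
      rw [h2, Set.encard_coe_eq_coe_finsetCard] at h1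
      exact_mod_cast h1
    · intro p hp
      have h1 := h p ((hmem p).1 hp)
      have h2 : ((T.filter (fun t => t ∈ insert p (J p ∪ B)) : Finset U) : Set U) ⊆
          ((T : Set U) ∩ X) \ (X \ insert p (J p ∪ B)) := by
        intro t ht
        rw [Finset.mem_coe, Finset.mem_filter] at ht
        have htX : t ∈ X := by
          rw [hX]
          rcases ht.2 with h3 | h3 | h3
          · left
            rw [h3]
            exact (hmem p).1 hp
          · right; left
            exact hJ p ((hmem p).1 hp) h3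
          · right; right
            exact h3
        exact ⟨⟨ht.1, htX⟩, fun h3 => h3.2 ht.2⟩
      have h3 := (Set.encard_le_encard h2).trans h1
      rw [Set.encard_coe_eq_coe_finsetCard] at h3
      exact_mod_cast h3
  · rw [hfil, ← hca]
    refine Finset.card_le_card ?_
    intro t ht
    exact (Finset.mem_filter.1 ht).2

theorem co2 : CO2Stmt.{u} := by
  classical
  intro U P P' A B X₁ X₂ J J' s a k k' b hs hPP' hPA hPB hP'A hP'B hAB hX₁ hX₂ hc hc' hJ hJ' hk hk' hb
  have hP₁ : P ⊆ X₁ := by rw [hX₁]; exact Set.subset_union_left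
  have hP₂ : P' ⊆ X₂ := by rw [hX₂]; exact Set.subset_union_left
  have hZ : ∀ (P A B X : Set U) (J : U → Set U), Disjoint P A → Disjoint P B → P ⊆ X →
      (∀ p ∈ P, J p ⊆ A) →
      ∀ p ∈ P, (X \ insert p (J p ∪ B)) ⊆ X ∧ p ∉ (X \ insert p (J p ∪ B)) ∧
        ∀ p' ∈ P, p' ≠ p → p' ∈ (X \ insert p (J p ∪ B)) := by
    intro P A B X J h1 h2 h3 h4 p hp
    refine ⟨Set.sdiff_subset, fun h => h.2 (Set.mem_insert _ _), ?_⟩
    intro p' hp' hne
    refine ⟨h3 hp', ?_⟩
    rintro (h | h | h)
    · exact hne h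
    · exact Set.disjoint_left.1 h1 hp' (h4 p hp h)
    · exact Set.disjoint_left.1 h2 hp' h
  refine helly_le (empty_mem_alignedSum (avoid_aligned _ hP₁).empty_mem
    (avoid_aligned _ hP₂).empty_mem) ?_
  intro T₀ hT hfin hcore
  obtain ⟨T, rfl⟩ : ∃ T : Finset U, T₀ = (T : Set U) := ⟨hfin.toFinset, by simp⟩
  have h1 := (core_sum_avoid_iff hP₁ hP₂ (hZ P A B X₁ J hPA hPB hP₁ hJ)
    (hZ P' B A X₂ J' hP'B hP'A hP₂ hJ') hs hT).1 hcore
  have hA : ∀ p ∈ P, (((T : Set U) ∩ X₁) \ (X₁ \ insert p (J p ∪ B))).encard ≤ s := by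
    intro p hp
    rcases h1 p (Or.inl (hP₁ hp)) with h | h
    · exact h.2 hp
    · exfalso
      have h2 := h.1
      rw [hX₂] at h2
      rcases h2 with h2 | h2 | h2
      · exact Set.disjoint_left.1 hPP' hp h2
      · exact Set.disjoint_left.1 hPB hp h2
      · exact Set.disjoint_left.1 hPA hp h2
  have hB : ∀ p ∈ P', (((T : Set U) ∩ X₂) \ (X₂ \ insert p (J' p ∪ A))).encard ≤ s := by
    intro p hp
    rcases h1 p (Or.inr (hP₂ hp)) with h | h
    · exfalso
      have h2 := h.1
      rw [hX₁] at h2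
      rcases h2 with h2 | h2 | h2
      · exact Set.disjoint_left.1 hPP' h2 hp
      · exact Set.disjoint_left.1 hP'A hp h2
      · exact Set.disjoint_left.1 hP'B hp h2
    · exact h.2 hp
  obtain ⟨hA1, hA2⟩ := side_core P A B X₁ J s a k T hPA hPB hAB hX₁ hc hJ hk hA
  obtain ⟨hB1, hB2⟩ := side_core P' B A X₂ J' s a k' T hP'B hP'A hAB.symm hX₂ hc' hJ' hk' hB
  have h2 := hb (T.filter (fun t => t ∈ A)).card (T.filter (fun t => t ∈ B)).card
    (T.filter (fun t => t ∈ P)).card (T.filter (fun t => t ∈ P')).card hA2 hB2 hA1 hB1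
  rw [Set.encard_coe_eq_coe_finsetCard]
  have h3 : T ⊆ ((T.filter (fun t => t ∈ A) ∪ T.filter (fun t => t ∈ B)) ∪
      T.filter (fun t => t ∈ P)) ∪ T.filter (fun t => t ∈ P') := by
    intro t ht
    simp only [Finset.mem_union, Finset.mem_filter, ht, true_and]
    rcases hT ht with h | h
    · rw [hX₁] at h
      rcases h with h | h | h <;> simp [h]
    · rw [hX₂] at h
      rcases h with h | h | h <;> simp [h]
  have h4 := Finset.card_le_card h3
  have h5 := Finset.card_union_le ((T.filter (fun t => t ∈ A) ∪ T.filter (fun t => t ∈ B)) ∪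
      T.filter (fun t => t ∈ P)) (T.filter (fun t => t ∈ P'))
  have h6 := Finset.card_union_le (T.filter (fun t => t ∈ A) ∪ T.filter (fun t => t ∈ B))
      (T.filter (fun t => t ∈ P))
  have h7 := Finset.card_union_le (T.filter (fun t => t ∈ A)) (T.filter (fun t => t ∈ B))
  have h8 : T.card ≤ b := by omega
  exact_mod_cast h8

end Pool.Agent.SHA.H53
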